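import Pool.Agent.Lib.MP_391708_nt.TG.Final
import Pool.Agent.Lib.MP_391708_nt.TG.Shape

set_option autoImplicit false

/-!
Let `a` be an integer such that `-a` is not a square.  The number of prime factors of `|n² + a|` is even for a positive
proportion of the `n` and odd for a positive proportion; a completely multiplicative sign function `g` takes each of its values
at positive numbers `x² + a y²` for a positive proportion of the `|n² + a|`.

Idea of the proof.  Let `f(M) = g(|M² + a|)`; `n = b m` reduces the theorem to squarefree `|a|`.

(1) *Relations.*  Let `G P Q = M² + a > 0` and let `D`, `D₂`, `X = G + D D₂` be such that `X` divides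
`P D² - 2 M D + G Q = X T`.  Then `M₄ = D P - M`, `M₂ = M + D₂ Q` and `M₃ = D R - M₂` satisfy `X P T = M₄² + a`,
`X Q R = M₂² + a`, `G R T = M₃² + a`, so `f(M) f(M₂) f(M₃) f(M₄) = 1`.

(2) *Input.*  Consider the pairs `(M, d)` with `d ∣ M² + a`, `M < d ≤ 3 M`, `M ≤ N`, of one class of forms (about `c N` of them,
concentrated on a set of `M` of density `0`).  The value `g(d)` at the primitive pair `(x, y)` with `d = F(x, y)` does not
correlate with the direction of `(x, y)`, for `a < 0` modulo the automorphisms (a theorem of Matomäki-Radziwiłł type for the
ideals of `ℚ(√-a)`, with all Hecke characters which are trivial on the units: `MA` and `MAR`).  The signs `f(M)` are products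
of the values at the two ends of an edge of the Farey graph.  If almost all had the same sign in a window of scales, `g` would
be almost constant on long chains of primitive pairs, against the theorem (`SG` and `SR`).

(3) *Weights.*  Every such pair gets relations: the primes `< N ^ ζ` of `d (M² + a) / d` are distributed to `G`, `P`, `Q` with
probability `1/3` each, `G` gets one larger prime of `d` and one of `(M² + a) / d`, and `(D, X)` runs over all possibilities
in a window, with weight `6 ^ (-ω)` at the small primes of `X`, `T`, `R`.  The first and second moment of the total weight of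
a pair are close to `1` (equidistribution of unimodular pairs of vectors in residue classes, Brun-Hooley sieve with weights,
comparison of the conditions at large primes with their probability), so the sign carries mass at the vertex `M`, and hence
at one of the other vertices.

(4) *The other vertices.*  The distribution of `M_j`, `j = 2, 3, 4`, has a density which is bounded in mean square: the
symmetries of the relation exchange the four vertices, and the colours of the small primes are `2/3`, `1/6`, `1/6`.  By
Cauchy-Schwarz the sign occurs at `≥ c N` numbers.
-/

namespace Pool.Agent.Results.MP_391708_nt.EveryA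

open Pool.Agent.Lib.MP391708 Finset Filter

/-- Let `a` be an integer such that `-a` is not a square. For `r = 0, 1` there are `c > 0` and `N₀` such that for all `N ≥ N₀`
the number of prime factors of `|n ^ 2 + a|`, counted with multiplicity, is `≡ r` modulo `2` for at least `c N` of the
`n ≤ N`. More generally the same holds for each of the values `s` which a completely multiplicative function `g` with values
`±1` takes at the positive numbers of the form `x ^ 2 + a y ^ 2`. -/
theorem result : ∀ a : ℤ, ¬ IsSquare (-a) →
    (∀ r : ℕ, ∃ c : ℝ, 0 < c ∧ ∀ᶠ N : ℕ in atTop,
      c * N ≤ (((Icc 1 N).filter (fun n : ℕ =>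
        ArithmeticFunction.cardFactors ((n : ℤ) ^ 2 + a).natAbs ≡ r [MOD 2])).card : ℝ)) ∧
    (∀ g : ℕ → ℤ, IsSign g →
      ∀ s : ℤ, (∃ x y : ℤ, 0 < x ^ 2 + a * y ^ 2 ∧ g (x ^ 2 + a * y ^ 2).natAbs = s) →
      ∃ c : ℝ, 0 < c ∧ ∀ᶠ N : ℕ in atTop,
        c * N ≤ (((Icc 1 N).filter (fun n : ℕ => g ((n : ℤ) ^ 2 + a).natAbs = s)).card : ℝ)) := by
  intro a ha
  have key : TG.Every a := TG.t1_every ha
  exact ⟨fun r => key.parity ha r, key⟩

end Pool.Agent.Results.MP_391708_nt.EveryA
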