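import Pool.Agent.Lib.MP_391708_nt.U.K.All5

/-!
# `n² + a` with exactly `k` prime factors: one exceptional set of shifts, all lengths

`Q k a N` is the number of `N < n ≤ 2 N` such that `|n² + a|` is a product of exactly `k` different
primes (`k = 1`: a prime), `QT` the number of those with the property `T` (a lower bound for the primes, a divisor of
prescribed size), `S` the sum of the density `1 / (2 √m)` over the `m` with the property `T`;
`IsConst a h` says that the product over the odd primes in the problem converges to `h`.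
-/

set_option autoImplicit false

namespace Pool.Agent.Results.MP_391708_nt.ExactlyKOneSet

open Filter Topology

/-- The number of the `N < n ≤ 2 N` such that `|n² + a|` is a product of exactly `k` different
primes. -/
def Q (k : ℕ) (a : ℤ) (N : ℕ) : ℕ :=
  ((Finset.Ioc N (2 * N)).filter (fun n : ℕ => Squarefree ((n : ℤ) ^ 2 + a).natAbs ∧
    ((n : ℤ) ^ 2 + a).natAbs.primeFactors.card = k)).card

/-- The product over the odd primes `w` of `1 - (-a|w)/(w-1)`, in increasing order, converges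
to `h`. -/
def IsConst (a : ℤ) (h : ℝ) : Prop :=
  Tendsto (fun X : ℕ => ∏ w ∈ (Finset.range (X + 1)).filter (fun w => Nat.Prime w ∧ w ≠ 2),
    (1 - (jacobiSym (-a) w : ℝ) / ((w : ℝ) - 1))) atTop (𝓝 h)

open scoped Classical in
/-- The number of the elements `a` of `E` with `|a| ≤ A`. -/
noncomputable def count (E : Set ℤ) (A : ℕ) : ℕ :=
  ((Finset.Icc (-(A : ℤ)) A).filter (fun a => a ∈ E)).card

/-- The exponent of the range of the lengths `N`: `10/7` for primes, `2` for `k ≥ 2`. -/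
noncomputable def e (k : ℕ) : ℝ := if k = 1 then 10 / 7 else 2

/-- `m` is a product of exactly `k` different primes, all of them `≥ N ^ δ`, and it has a divisor
in `(N ^ α, N ^ β]`. -/
def T (k : ℕ) (δ α β : ℝ) (N m : ℕ) : Prop :=
  Squarefree m ∧ m.primeFactors.card = k ∧ (∀ p : ℕ, p.Prime → p ∣ m → (N : ℝ) ^ δ ≤ p) ∧
    ∃ d : ℕ, d ∣ m ∧ (N : ℝ) ^ α < d ∧ (d : ℝ) ≤ (N : ℝ) ^ β

open scoped Classical in
/-- The number of the `N < n ≤ 2 N` such that `|n² + a|` has the property `T`. -/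
noncomputable def QT (k : ℕ) (δ α β : ℝ) (a : ℤ) (N : ℕ) : ℕ :=
  ((Finset.Ioc N (2 * N)).filter (fun n : ℕ => T k δ α β N ((n : ℤ) ^ 2 + a).natAbs)).card

open scoped Classical in
/-- The sum of `1 / (2 √m)` over the integers `N² < m ≤ 4 N²` with the property `T`. -/
noncomputable def S (k : ℕ) (δ α β : ℝ) (N : ℕ) : ℝ :=
  ∑ m ∈ (Finset.Ioc (N ^ 2) (4 * N ^ 2)).filter (fun m => T k δ α β N m), 1 / (2 * √(m : ℝ))

open scoped Classical in
/-- The number of the `N < n ≤ 2 N` with `|n² + a| = p q`, `p`, `q` prime, `N ^ α < p ≤ N ^ β`. -/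
noncomputable def Q2 (α β : ℝ) (a : ℤ) (N : ℕ) : ℕ :=
  ((Finset.Ioc N (2 * N)).filter (fun n : ℕ => ∃ p q : ℕ, p.Prime ∧ q.Prime ∧
    ((n : ℤ) ^ 2 + a).natAbs = p * q ∧ (N : ℝ) ^ α < p ∧ (p : ℝ) ≤ (N : ℝ) ^ β)).card

/-- **Exactly `k` prime factors.** There is one set `E` of integers (for all `k` and all the
parts), with at most `A / (log A) ^ B` elements `|a| ≤ A` for every `B` and all large `A`, such that
for the integers `a` outside `E` with `|a|` large in terms of the parameters the product in the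
problem converges to an `h > 0` and

* lower bound: for all `k ≥ 1` and `δ > 0` there is `c > 0` (depending only on `k` and `δ`) such
  that for all `N` with `|a| ≤ N (log N) ^ (1/4)` and `N ≤ |a| ^ (e - δ)` (`e = 10/7` for `k = 1`,
  `e = 2` for `k ≥ 2`) `|n² + a|` is a product of exactly `k` different primes for at least
  `c h N / log N` of the `n` with `N < n ≤ 2 N`;
* asymptotic formula: for all `k ≥ 2`, `1/2 < θ ≤ 1`, `0 < δ < 1/10`, `2/3 < α < β < 1` with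
  `θ + α > 3/2` and `ε > 0` and all `N` with `N ^ θ ≤ |a| ≤ N (log N) ^ (1/4)` the number of the
  `N < n ≤ 2 N` such that `|n² + a|` is a product of exactly `k` different primes, all `≥ N ^ δ`,
  with a divisor in `(N ^ α, N ^ β]` is `h` times the sum of `1 / (2 √m)` over the `m` in
  `(N², 4 N²]` with this property, with an error of at most `ε h N / log N`;
* its case `k = 2`, with the main term evaluated: for `θ`, `α`, `β`, `ε`, `N` as before the number
  of the `N < n ≤ 2 N` with `|n² + a| = p q`, `p`, `q` prime, `N ^ α < p ≤ N ^ β`, is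
  `(1/2) log (β (2 - α) / (α (2 - β))) h N / log N`, with an error of at most `ε h N / log N`. -/
theorem result : ∃ E : Set ℤ,
    (∀ B : ℝ, ∃ A₀ : ℕ, ∀ A : ℕ, A₀ ≤ A → (count E A : ℝ) ≤ A / (Real.log A) ^ B) ∧
    (∀ (k : ℕ) (δ : ℝ), 1 ≤ k → 0 < δ → ∃ c : ℝ, 0 < c ∧
      ∃ a₀ : ℝ, ∀ a : ℤ, a ∉ E → a₀ ≤ |(a : ℝ)| → ∃ h : ℝ, 0 < h ∧ IsConst a h ∧
        ∀ N : ℕ, |(a : ℝ)| ≤ N * (Real.log N) ^ (1 / 4 : ℝ) → (N : ℝ) ≤ |(a : ℝ)| ^ (e k - δ) →
          c * (h * (N / Real.log N)) ≤ Q k a N) ∧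
    (∀ (k : ℕ) (θ δ α β ε : ℝ), 2 ≤ k → 1 / 2 < θ → θ ≤ 1 → 0 < δ → δ < 1 / 10 → 2 / 3 < α →
      3 / 2 < θ + α → α < β → β < 1 → 0 < ε →
      ∃ a₀ : ℝ, ∀ a : ℤ, a ∉ E → a₀ ≤ |(a : ℝ)| → ∃ h : ℝ, 0 < h ∧ IsConst a h ∧
        ∀ N : ℕ, |(a : ℝ)| ≤ N * (Real.log N) ^ (1 / 4 : ℝ) → (N : ℝ) ^ θ ≤ |(a : ℝ)| →
          |QT k δ α β a N - h * S k δ α β N| ≤ ε * (h * (N / Real.log N))) ∧
    ∀ (θ α β ε : ℝ), 1 / 2 < θ → θ ≤ 1 → 2 / 3 < α → 3 / 2 < θ + α → α < β → β < 1 → 0 < ε →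
      ∃ a₀ : ℝ, ∀ a : ℤ, a ∉ E → a₀ ≤ |(a : ℝ)| → ∃ h : ℝ, 0 < h ∧ IsConst a h ∧
        ∀ N : ℕ, |(a : ℝ)| ≤ N * (Real.log N) ^ (1 / 4 : ℝ) → (N : ℝ) ^ θ ≤ |(a : ℝ)| →
          |Q2 α β a N - 1 / 2 * Real.log (β * (2 - α) / (α * (2 - β))) * (h * (N / Real.log N))|
            ≤ ε * (h * (N / Real.log N)) := by
  obtain ⟨E, h1, _, h2, h3, h4⟩ := Pool.Agent.Lib.MP391708.U.K.spec_join
    Pool.Agent.Lib.MP391708.U.K.mainw Pool.Agent.Lib.MP391708.U.K.mainb
  refine ⟨E, h1, h2, ?_, h4⟩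
  intro k θ δ α β ε _ g1 g2 g3 g4 g5 g6 g7 g8 g9
  obtain ⟨a₀, h5⟩ := h3 k θ δ α β ε g1 g2 g3 g4 g5 g6 g7 g8 g9
  refine ⟨a₀, fun a ha ha0 => ?_⟩
  obtain ⟨h, hh, hC, h6⟩ := h5 a ha ha0
  refine ⟨h, hh, hC, fun N hN hN2 => ?_⟩
  have e1 : (QT k δ α β a N : ℝ) = Pool.Agent.Lib.MP391708.QPA.cnt N a
      (Pool.Agent.Lib.MP391708.QPA.H.EInd N k δ α β) := by
    unfold QT Pool.Agent.Lib.MP391708.QPA.cnt
    rw [Finset.card_filter]
    push_cast
    refine Finset.sum_congr rfl fun n _ => ?_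
    unfold Pool.Agent.Lib.MP391708.QPA.H.EInd T Pool.Agent.Lib.MP391708.QPA.Rough
      Pool.Agent.Lib.MP391708.QPA.val
    split_ifs <;> rfl
  have e2 : S k δ α β N = Pool.Agent.Lib.MP391708.QPA.model N
      (Pool.Agent.Lib.MP391708.QPA.H.EInd N k δ α β) := by
    unfold S Pool.Agent.Lib.MP391708.QPA.model
    rw [Finset.sum_filter]
    refine Finset.sum_congr rfl fun m _ => ?_
    unfold Pool.Agent.Lib.MP391708.QPA.H.EInd T Pool.Agent.Lib.MP391708.QPA.Rough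
    split_ifs <;> simp
  rw [e1, e2]
  exact h6 N hN hN2

end Pool.Agent.Results.MP_391708_nt.ExactlyKOneSet
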