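import Pool.Agent.Lib.MP_391708_nt.X4.FinalK

/-!
# `n² + b²` with exactly `k ≥ 3` prime factors, for almost all `b` and all lengths up to `exp(b^c)`: a lower bound and an
asymptotic formula in dyadic boxes

`Q k b N` is the number of `1 ≤ n ≤ N` such that `n² + b²` is a product of exactly `k` different primes; `IsConst b h` says that
`h` is the constant of the problem for `a = b²`; `W e b P K M` is the number of `n ≥ 1` such that `n² + b² = s_1 ⋯ s_r p q t` with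
primes `s_i ∈ (e i, 2 e i]`, `p ∈ (P, 2P]`, `t ∈ (M, 2M]` and `q` with `s_1 ⋯ s_r q ∈ (K, 2K]`; `main e h P K M` is the
expected number.
-/

set_option autoImplicit false

namespace Pool.Agent.Results.MP_391708_nt.LongLengths

/-- The number of the `1 ≤ n ≤ N` such that `n² + b²` is a product of exactly `k` different
primes. -/
def Q (k b N : ℕ) : ℕ :=
  ((Finset.Icc 1 N).filter (fun n : ℕ => Squarefree (n ^ 2 + b ^ 2) ∧
    (n ^ 2 + b ^ 2).primeFactors.card = k)).card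

open scoped Classical in
/-- The number of the elements `b` of `E` with `1 ≤ b ≤ x`. -/
noncomputable def count (E : Set ℕ) (x : ℕ) : ℕ :=
  ((Finset.Icc 1 x).filter (fun b => b ∈ E)).card

/-- `h` is the constant of the problem for `a = b²`: the limit, as `X → ∞`, of the products over the
odd primes `w ≤ X` of `1 - (-b² | w) / (w - 1)`. -/
def IsConst (b : ℕ) (h : ℝ) : Prop :=
  Filter.Tendsto (fun X : ℕ => ∏ w ∈ (Finset.range (X + 1)).filter (fun w => Nat.Prime w ∧ w ≠ 2),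
    (1 - (jacobiSym (-((b : ℤ) ^ 2)) w : ℝ) / ((w : ℝ) - 1))) Filter.atTop (nhds h)

/-- The number of the `n ≥ 1` such that `n² + b² = s_1 ⋯ s_r p q t` with primes `s_i ∈ (e i, 2 e i]`,
`p ∈ (P, 2P]`, `t ∈ (M, 2M]`, and a prime `q` with `s_1 ⋯ s_r q ∈ (K, 2K]`. -/
noncomputable def W {r : ℕ} (e : Fin r → ℝ) (b : ℕ) (P K M : ℝ) : ℕ :=
  Set.ncard {n : ℕ | 1 ≤ n ∧ ∃ (s : Fin r → ℕ) (p q t : ℕ),
    (∀ i, (s i).Prime ∧ e i < s i ∧ (s i : ℝ) ≤ 2 * e i) ∧ p.Prime ∧ q.Prime ∧ t.Prime ∧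
    P < p ∧ (p : ℝ) ≤ 2 * P ∧ K < ((∏ i, s i) * q : ℕ) ∧ (((∏ i, s i) * q : ℕ) : ℝ) ≤ 2 * K ∧
    M < t ∧ (t : ℝ) ≤ 2 * M ∧ n ^ 2 + b ^ 2 = (∏ i, s i) * p * q * t}

/-- The expected number (Bateman–Horn):
`4 (√2 - 1)³ h √(P K M) / (log P log K log M) · ∏ (log 2 / log (e i))`. -/
noncomputable def main {r : ℕ} (e : Fin r → ℝ) (h P K M : ℝ) : ℝ :=
  4 * (Real.sqrt 2 - 1) ^ 3 * h * Real.sqrt (P * K * M) /
    (Real.log P * Real.log K * Real.log M) * ∏ i, (Real.log 2 / Real.log (e i))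

/-- The conditions on `b` and the box, with `N = √(8 P K M)` (so that `n ≤ N`): `b² ≤ N`; `P` and the `e i` are at
least `(log N)^C₀`, `P ≤ (log N)^C₁`; `N / K` is at least `P (log N)^D`, at most `N^c`, and
`(N / K) P (log N)^D ≤ b`; the `e i` are separated and `(∏ 2 e i)⁴ ≤ P`. -/
structure Box {r : ℕ} (C₀ C₁ D c : ℝ) (b : ℕ) (e : Fin r → ℝ) (P K M N : ℝ) : Prop where
  N8 : N = Real.sqrt (8 * P * K * M)
  b2 : (b : ℝ) ^ 2 ≤ N
  P1 : Real.log N ^ C₀ ≤ P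
  P2 : P ≤ Real.log N ^ C₁
  T1 : P * Real.log N ^ D ≤ N / K
  T2 : N / K ≤ N ^ c
  T3 : N / K * P * Real.log N ^ D ≤ b
  e1 : ∀ i, Real.log N ^ C₀ ≤ e i
  e2 : StrictMono e
  e4 : (∏ i, (2 * e i)) ^ 4 ≤ P

/-- For every `A` there is a set `E` of positive integers, with at most `x / (log x) ^ A` elements `b ≤ x` for all large
`x`, such that:

(1) for all `k ≥ 3` there are `c > 0` and `b₀` such that, for all the integers `b ≥ b₀` outside `E`: the constant `h` of the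
problem for `a = b²` exists, `h > 0`, and for all `N` with `b² ≤ N ≤ exp(b ^ c)`, `n² + b²` is a product of exactly `k`
different primes for at least `c h N log b / (log N) ^ 2` of the `n ≤ N`;

(2) for all `r ≥ 0` (so `k = r + 3`) and `ε > 0` there is `C₀`, and for every `C₁` there are `D`, `c > 0`, `b₀`, such that, for
all `b ≥ b₀` outside `E`, `h` the constant of the problem, and all powers of two `e 0 < ⋯ < e (r - 1)`, `P`, `K`, `M` with the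
conditions `Box C₀ C₁ D c`, the number of the `n ≥ 1` such that `n² + b² = s_1 ⋯ s_r p q t` with primes in the ranges of `W`
is equal to the expected number up to a relative error `ε`. -/
theorem result : ∀ A : ℕ, ∃ E : Set ℕ,
    (∃ x₀ : ℕ, ∀ x : ℕ, x₀ ≤ x → (count E x : ℝ) ≤ x / (Real.log x) ^ A) ∧
    (∀ k : ℕ, 3 ≤ k → ∃ c : ℝ, 0 < c ∧ ∃ b₀ : ℕ, ∀ b : ℕ, b₀ ≤ b → b ∉ E →
      ∃ h : ℝ, 0 < h ∧ IsConst b h ∧ ∀ N : ℕ, b ^ 2 ≤ N → (N : ℝ) ≤ Real.exp ((b : ℝ) ^ c) →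
        c * h * (N * Real.log b / (Real.log N) ^ 2) ≤ Q k b N) ∧
    ∀ (r : ℕ) (ε : ℝ), 0 < ε → ∃ C₀ : ℝ, ∀ C₁ : ℝ, ∃ D c : ℝ, 0 < c ∧ ∃ b₀ : ℕ, ∀ b : ℕ, b₀ ≤ b → b ∉ E →
      ∃ h : ℝ, 0 < h ∧ IsConst b h ∧
        ∀ (m : Fin r → ℕ) (i j l : ℕ) (N : ℝ), Box C₀ C₁ D c b (fun a => (2 : ℝ) ^ m a) (2 ^ i) (2 ^ j) (2 ^ l) N →
          |(W (fun a => (2 : ℝ) ^ m a) b (2 ^ i) (2 ^ j) (2 ^ l) : ℝ) -
            main (fun a => (2 : ℝ) ^ m a) h (2 ^ i) (2 ^ j) (2 ^ l)| ≤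
              ε * main (fun a => (2 : ℝ) ^ m a) h (2 ^ i) (2 ^ j) (2 ^ l) := by
  intro A
  obtain ⟨E, h1, h2, h3⟩ := Pool.Agent.Lib.MP391708.X4.bothK Pool.Agent.Lib.MP391708.X3.mainX3
    Pool.Agent.Lib.MP391708.X4.mainXK A
  refine ⟨E, h1, h2, fun r ε hε => ?_⟩
  obtain ⟨C₀, h4⟩ := h3 r ε hε
  refine ⟨C₀, fun C₁ => ?_⟩
  obtain ⟨D, c, hc, b₀, h5⟩ := h4 C₁
  refine ⟨D, c, hc, b₀, fun b hb hbE => ?_⟩
  obtain ⟨h, hh, hconst, h6⟩ := h5 b hb hbE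
  refine ⟨h, hh, hconst, fun m i j l N hB => ?_⟩
  refine h6 m i j l N ⟨⟨hB.N8, hB.b2, hB.P1, hB.P2, hB.T1, hB.T2, hB.T3⟩, ?_, hB.e1, ?_⟩
  · intro a a' ha
    exact (pow_lt_pow_iff_right₀ (by norm_num : (1 : ℝ) < 2)).1 (hB.e2 ha)
  · have h7 := hB.e4
    refine le_trans (le_of_eq ?_) h7
    congr 1
    refine Finset.prod_congr rfl fun a _ => ?_
    rw [pow_succ]
    ring

end Pool.Agent.Results.MP_391708_nt.LongLengths
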