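import Pool.Agent.Lib.MP_391708_nt.U.L.All6

/-!
# The primes `n² + a`: one exceptional set of shifts

`P a N` is the number of `1 ≤ n ≤ N` such that `|n² + a|` is a prime, `IsConst a h` says that
the product over the odd primes in the problem converges to `h`, `Li N` is `∫_2^N dt / log t`.
-/

set_option autoImplicit false

namespace Pool.Agent.Results.MP_391708_nt.OneExceptionalSet

open Filter Topology

/-- The number of `1 ≤ n ≤ N` such that `|n² + a|` is a prime. -/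
def P (a : ℤ) (N : ℕ) : ℕ :=
  ((Finset.Icc 1 N).filter (fun n : ℕ => Nat.Prime ((n : ℤ) ^ 2 + a).natAbs)).card

/-- The product over the odd primes `w` of `1 - (-a|w)/(w-1)`, in increasing order, converges
to `h`. -/
def IsConst (a : ℤ) (h : ℝ) : Prop :=
  Tendsto (fun X : ℕ => ∏ w ∈ (Finset.range (X + 1)).filter (fun w => Nat.Prime w ∧ w ≠ 2),
    (1 - (jacobiSym (-a) w : ℝ) / ((w : ℝ) - 1))) atTop (𝓝 h)

/-- `∫_2^N dt / log t`. -/
noncomputable def Li (N : ℕ) : ℝ := ∫ t in (2 : ℝ)..(N : ℝ), 1 / Real.log t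

open scoped Classical in
/-- The number of the elements `a` of `E` with `|a| ≤ A`. -/
noncomputable def count (E : Set ℤ) (A : ℕ) : ℕ :=
  ((Finset.Icc (-(A : ℤ)) A).filter (fun a => a ∈ E)).card

/-- **The primes `n² + a`, one exceptional set**: there is a set `E` of integers, with at most
`A / (log A) ^ B` elements `|a| ≤ A` for every `B` and all large `A`, such that for all `δ, ε > 0` and
all the integers `a` outside `E` with `|a|` large the product in the problem converges to a constant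
`h > 0`, and for all `N` with `|a| ≤ N (log N) ^ (1/4)` (for instance `|a| ≤ N`, `N ≥ 3`):

* if `N ≤ |a| ^ (6/5 - δ)`, then `|P_a(N) - (h/2) Li(N)| ≤ ε h Li(N)`;
* if `N ≤ |a| ^ (10/7 - δ)`, then `P_a(N)` is at least `79/100` of the expected number `(h/2) Li(N)`;
* if `N ≤ |a| ^ (14/9 - δ)`, then the number `P_a(2N) - P_a(N)` of the `n` in `(N, 2N]` with a prime
  value is at least `(1/20) h N / log N`, a tenth of the expected number. -/
theorem result : ∃ E : Set ℤ,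
    (∀ B : ℝ, ∃ A₀ : ℕ, ∀ A : ℕ, A₀ ≤ A → (count E A : ℝ) ≤ A / (Real.log A) ^ B) ∧
    ∀ δ ε : ℝ, 0 < δ → 0 < ε → ∃ a₀ : ℝ, ∀ a : ℤ, a ∉ E → a₀ ≤ |(a : ℝ)| →
      ∃ h : ℝ, 0 < h ∧ IsConst a h ∧ ∀ N : ℕ, |(a : ℝ)| ≤ N * (Real.log N) ^ (1 / 4 : ℝ) →
        ((N : ℝ) ≤ |(a : ℝ)| ^ (6 / 5 - δ) →
          |(P a N : ℝ) - 1 / 2 * h * Li N| ≤ ε * (h * Li N)) ∧
        ((N : ℝ) ≤ |(a : ℝ)| ^ (10 / 7 - δ) → 79 / 100 * (1 / 2 * h * Li N) ≤ P a N) ∧
        ((N : ℝ) ≤ |(a : ℝ)| ^ (14 / 9 - δ) →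
          1 / 20 * (h * (N / Real.log N)) ≤ (P a (2 * N) : ℝ) - P a N) := by
  obtain ⟨E, h1, h2⟩ := Pool.Agent.Lib.MP391708.U.L.spec_primes
    Pool.Agent.Lib.MP391708.U.K.mainw Pool.Agent.Lib.MP391708.U.L.mainl
  exact ⟨E, h1, h2⟩

end Pool.Agent.Results.MP_391708_nt.OneExceptionalSet
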